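import Mathlib

/-!
# Weight of compact convex sets of scatteredly continuous functions (MP_3f847c_gt)

`X = 2^ℝ` with the countable-box topology has weight (hence network weight) at most `𝔠`, and
`K = {f ≥ 0 : ∑ f ≤ 1}` is a compact convex subset of `SC_p(X)` of weight at least `2^𝔠`.
-/

namespace Pool.Agent.Results.MP_3f847c_gt.WeightExceeds

open Set Topology Filter Cardinal

universe u

/-- `f` is scatteredly continuous: for every nonempty `A ⊆ X` the restriction `f|_A` has a point of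
continuity. -/
def ScatteredlyContinuous {X : Type u} [TopologicalSpace X] (f : X → ℝ) : Prop :=
  ∀ A : Set X, A.Nonempty → ∃ a : A, ContinuousAt (fun x : A => f x) a

/-- a network of `Z` -/
def IsNetwork {Z : Type u} [TopologicalSpace Z] (𝒩 : Set (Set Z)) : Prop :=
  ∀ (z : Z) (U : Set Z), IsOpen U → z ∈ U → ∃ N ∈ 𝒩, z ∈ N ∧ N ⊆ U

/-- the weight of `Z` (at least `ℵ₀` by convention) -/
noncomputable def weight (Z : Type u) [TopologicalSpace Z] : Cardinal.{u} :=
  max ℵ₀ (sInf {κ | ∃ B : Set (Set Z), TopologicalSpace.IsTopologicalBasis B ∧ #B = κ})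

/-- the network weight of `Z` (at least `ℵ₀` by convention) -/
noncomputable def networkWeight (Z : Type u) [TopologicalSpace Z] : Cardinal.{u} :=
  max ℵ₀ (sInf {κ | ∃ 𝒩 : Set (Set Z), IsNetwork 𝒩 ∧ #𝒩 = κ})

/-- The set `2^ℝ`. -/
def X : Type := ℝ → Bool

/-- the countable-box topology on `2^ℝ` -/
instance : TopologicalSpace X where
  IsOpen U := ∀ x ∈ U, ∃ C : Set ℝ, C.Countable ∧ ∀ y : X, (∀ c ∈ C, y c = x c) → y ∈ U
  isOpen_univ := fun _ _ => ⟨∅, countable_empty, fun _ _ => mem_univ _⟩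
  isOpen_inter := by
    rintro U V hU hV x ⟨hxU, hxV⟩
    obtain ⟨C, hC, hCU⟩ := hU x hxU
    obtain ⟨D, hD, hDV⟩ := hV x hxV
    exact ⟨C ∪ D, hC.union hD, fun y hy => ⟨hCU y fun c hc => hy c (Or.inl hc),
      hDV y fun c hc => hy c (Or.inr hc)⟩⟩
  isOpen_sUnion := by
    rintro 𝒮 h𝒮 x ⟨U, hU, hxU⟩
    obtain ⟨C, hC, hCU⟩ := h𝒮 U hU x hxU
    exact ⟨C, hC, fun y hy => ⟨U, hU, hCU y hy⟩⟩

/-- basic open sets of `X` coded by sequences -/
def box (u : ℕ → ℝ × Bool) : Set X := {y | ∀ n, y (u n).1 = (u n).2}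

theorem network_box : IsNetwork (range box) := by
  intro x U hU hx
  obtain ⟨C, hC, hCU⟩ := hU x hx
  have hC' : (insert (0 : ℝ) C).Countable := hC.insert 0
  obtain ⟨e, he⟩ := hC'.exists_eq_range ⟨0, mem_insert _ _⟩
  refine ⟨box fun n => (e n, x (e n)), mem_range_self _, fun n => rfl, ?_⟩
  intro y hy
  apply hCU
  intro c hc
  have : c ∈ range e := he ▸ mem_insert_of_mem _ hc
  obtain ⟨n, rfl⟩ := this
  exact hy n

theorem mk_range_box : #(range box) ≤ 𝔠 := by
  refine mk_range_le.trans ?_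
  have h : #(ℕ → ℝ × Bool) = 𝔠 := by
    rw [← Cardinal.power_def, Cardinal.mk_prod, Cardinal.mk_real, Cardinal.mk_nat]
    simp
  exact h.le

theorem networkWeight_X : networkWeight X ≤ 𝔠 := by
  refine max_le aleph0_le_continuum ?_
  have h : #(range box) ∈ {κ : Cardinal.{0} | ∃ 𝒩 : Set (Set X), IsNetwork 𝒩 ∧ #𝒩 = κ} :=
    ⟨range box, network_box, rfl⟩
  exact (csInf_le' h).trans mk_range_box

theorem mk_X : #X = 2 ^ 𝔠 := by
  show #(ℝ → Bool) = _
  simp [Cardinal.mk_real]

/-- a countable set avoiding `x` misses a neighbourhood of `x` -/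
theorem isOpen_compl_countable {S : Set X} (hS : S.Countable) : IsOpen Sᶜ := by
  intro x hx
  have h1 : ∀ s : S, ∃ c : ℝ, (s : X) c ≠ x c := by
    intro s
    by_contra h
    push Not at h
    have : (s : X) = x := funext h
    exact hx (this ▸ s.2)
  choose c hc using h1
  haveI := hS.to_subtype
  refine ⟨range c, countable_range c, ?_⟩
  intro y hy hyS
  exact hc ⟨y, hyS⟩ (hy _ (mem_range_self _))

/-- `K`: nonnegative functions with sum at most one -/
def K : Set (X → ℝ) := {f | (∀ x, 0 ≤ f x) ∧ ∀ F : Finset X, ∑ x ∈ F, f x ≤ 1}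

theorem K_convex : Convex ℝ K := by
  intro f hf g hg a b ha hb hab
  refine ⟨fun x => ?_, fun F => ?_⟩
  · exact add_nonneg (mul_nonneg ha (hf.1 x)) (mul_nonneg hb (hg.1 x))
  · have : ∑ x ∈ F, (a • f + b • g) x = a * ∑ x ∈ F, f x + b * ∑ x ∈ F, g x := by
      simp [Finset.sum_add_distrib, Finset.mul_sum]
    rw [this]
    have h1 := hf.2 F
    have h2 := hg.2 F
    nlinarith

theorem K_le_one {f : X → ℝ} (hf : f ∈ K) (x : X) : f x ≤ 1 := by
  simpa using hf.2 {x}

theorem K_compact : IsCompact K := by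
  have h1 : IsCompact (Set.pi univ (fun _ : X => Icc (0 : ℝ) 1)) :=
    isCompact_univ_pi fun _ => isCompact_Icc
  refine h1.of_isClosed_subset ?_ ?_
  · have : K = (⋂ x : X, {f : X → ℝ | 0 ≤ f x}) ∩
        ⋂ F : Finset X, {f : X → ℝ | ∑ x ∈ F, f x ≤ 1} := by
      ext f
      simp [K]
    rw [this]
    refine IsClosed.inter (isClosed_iInter fun x => ?_) (isClosed_iInter fun F => ?_)
    · exact isClosed_le continuous_const (continuous_apply x)
    · exact isClosed_le (continuous_finsetSum _ fun x _ => continuous_apply x) continuous_const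
  · intro f hf x _
    exact ⟨hf.1 x, K_le_one hf x⟩

theorem support_countable {f : X → ℝ} (hf : f ∈ K) : {x | f x ≠ 0}.Countable := by
  have h1 : {x | f x ≠ 0} ⊆ ⋃ n : ℕ, {x | 1 / ((n : ℝ) + 1) < f x} := by
    intro x hx
    have hpos : 0 < f x := lt_of_le_of_ne (hf.1 x) (Ne.symm hx)
    obtain ⟨n, hn⟩ := exists_nat_one_div_lt hpos
    exact mem_iUnion.2 ⟨n, hn⟩
  refine (countable_iUnion fun n => ?_).mono h1
  apply Set.Finite.countable
  by_contra hinf
  obtain ⟨F, hF, hcard⟩ := Set.Infinite.exists_subset_card_eq hinf (n + 1)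
  have h2 := hf.2 F
  have h3 : ∑ _x ∈ F, (1 / ((n : ℝ) + 1)) < ∑ x ∈ F, f x := by
    apply Finset.sum_lt_sum_of_nonempty
    · rw [← Finset.card_pos, hcard]
      exact Nat.succ_pos n
    · intro x hx
      exact hF hx
  rw [Finset.sum_const, hcard, nsmul_eq_mul] at h3
  have h4 : ((n + 1 : ℕ) : ℝ) * (1 / ((n : ℝ) + 1)) = 1 := by
    push_cast
    field_simp
  linarith

theorem K_sc {f : X → ℝ} (hf : f ∈ K) : ScatteredlyContinuous f := by
  rintro A ⟨a, ha⟩
  have hS := support_countable hf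
  by_cases h : ∃ x ∈ A, f x = 0
  · obtain ⟨x, hxA, hx⟩ := h
    refine ⟨⟨x, hxA⟩, ?_⟩
    have h1 : {y : X | f y ≠ 0}ᶜ ∈ 𝓝 x := (isOpen_compl_countable hS).mem_nhds (by simpa using hx)
    have h2 : ∀ᶠ y : A in 𝓝 (⟨x, hxA⟩ : A), f y = 0 := by
      have := continuous_subtype_val.continuousAt (x := (⟨x, hxA⟩ : A)) h1
      filter_upwards [this] with y hy
      simpa using hy
    show Tendsto (fun y : A => f y) (𝓝 ⟨x, hxA⟩) (𝓝 (f x))
    rw [hx]
    exact tendsto_const_nhds.congr' (h2.mono fun y hy => hy.symm)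
  · push Not at h
    refine ⟨⟨a, ha⟩, ?_⟩
    have hA : A.Countable := hS.mono fun x hx => h x hx
    have h1 : (A \ {a})ᶜ ∈ 𝓝 a :=
      (isOpen_compl_countable (hA.mono sdiff_subset)).mem_nhds (by simp)
    have h2 : ∀ᶠ y : A in 𝓝 (⟨a, ha⟩ : A), y = ⟨a, ha⟩ := by
      have := continuous_subtype_val.continuousAt (x := (⟨a, ha⟩ : A)) h1
      filter_upwards [this] with y hy
      by_contra hne
      exact hy ⟨y.2, fun h => hne (Subtype.ext h)⟩
    show Tendsto _ _ _
    refine tendsto_const_nhds.congr' (h2.mono fun y hy => ?_)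
    rw [hy]

/-- characteristic function of `{a}` -/
noncomputable def chi (a : X) : X → ℝ := by
  classical
  exact fun x => if x = a then 1 else 0

theorem chi_self (a : X) : chi a a = 1 := by simp [chi]

theorem chi_mem (a : X) : chi a ∈ K := by
  classical
  refine ⟨fun x => ?_, fun F => ?_⟩
  · unfold chi
    split_ifs <;> norm_num
  · unfold chi
    rw [Finset.sum_ite_eq']
    split_ifs <;> norm_num

theorem two_pow_le_weight : 2 ^ 𝔠 ≤ weight K := by
  classical
  refine le_trans ?_ (le_max_right _ _)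
  apply le_csInf
  · exact ⟨_, _, TopologicalSpace.isTopologicalBasis_opens, rfl⟩
  · rintro κ ⟨B, hB, rfl⟩
    rw [← mk_X]
    have h1 : ∀ x : X, ∃ V ∈ B, (⟨chi x, chi_mem x⟩ : K) ∈ V ∧ V ⊆ {f : K | (1/2 : ℝ) < f.1 x} := by
      intro x
      apply hB.exists_subset_of_mem_open
      · show (1/2 : ℝ) < chi x x
        rw [chi_self]
        norm_num
      · exact isOpen_Ioi.preimage ((continuous_apply x).comp continuous_subtype_val)
    choose V hVB hV hV2 using h1
    refine mk_le_of_injective (f := fun x => (⟨V x, hVB x⟩ : B)) ?_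
    intro x y hxy
    have hxy' : V x = V y := congrArg (fun z : B => (z : Set K)) hxy
    by_contra hne
    have h3 : (⟨chi x, chi_mem x⟩ : K) ∈ V y := hxy' ▸ hV x
    have h4 : (1/2 : ℝ) < chi x y := hV2 y h3
    unfold chi at h4
    rw [if_neg (Ne.symm hne)] at h4
    norm_num at h4

/-- **MP_3f847c_gt, Q1 (negated form).** There are a topological space `X` and a compact convex set
`K ⊆ SC_p(X)` with `w(K) > nw(X)`. -/
theorem result : ∃ (X : Type) (_ : TopologicalSpace X) (K : Set (X → ℝ)),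
    (∀ f ∈ K, ScatteredlyContinuous f) ∧ IsCompact K ∧ Convex ℝ K ∧
      networkWeight X < weight K := by
  refine ⟨X, inferInstance, K, fun f hf => K_sc hf, K_compact, K_convex, ?_⟩
  exact networkWeight_X.trans_lt ((cantor 𝔠).trans_le two_pow_le_weight)

end Pool.Agent.Results.MP_3f847c_gt.WeightExceeds
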